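import Pool.Agent.Helper95.LT.LinH

/-!
# Operations equivalent to concatenation for LINTIME, the star, and the linear-time hierarchy

The machine models and the classes `LINTIME` and `REALTIME` are defined in
`Pool.Agent.Helper86.TMBase`; `ConcatClosed`, `cyc`, `minL`, `del1`, `exQ`, `LinH` and `ExpTime` in
`Pool.Agent.Helper95.LT.Defs`.

Ideas.  Concatenation closure allows to choose a cut of the input (`a^|w| # w` in `{a}* P`).  The
operations recover marked concatenations; for `Min`, a word `w` has a prefix in `L` iff `w $` is
not minimal in `L ∪ A* $`, and multiplication by `A*` is hard by `RegularContextDichotomy`.  For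
the hierarchy: `O(log n)` guessed bits do not help (`LogGuessEquivalence`), and for words padded to
length `2 ^ (n / q)` these are `O(n)` bits.
-/

namespace Pool.Agent.Results.MP_02733f_lc.EquivalentOperations

open Pool.Agent.Helper86 Pool.Agent.Helper95.LT
open scoped Computability

/-- Closure of `LINTIME` under concatenation is equivalent to closure under squares, cyclic
shifts, `Min`, deletion of one occurrence of a letter, and quantification over one position; it
follows if the star of every language in `REALTIME` is in `LINTIME`; and it implies that the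
linear-time hierarchy is contained in time `O(2 ^ (n / q))` for every `q`. -/
theorem result :
    ((∀ (α : Type) [Finite α] (L : Language α), LINTIME L → LINTIME (L * L)) ↔ ConcatClosed) ∧
    ((∀ (α : Type) [Finite α] (L : Language α), LINTIME L → LINTIME (cyc L)) ↔ ConcatClosed) ∧
    ((∀ (α : Type) [Finite α] (L : Language α), LINTIME L → LINTIME (minL L)) ↔ ConcatClosed) ∧
    ((∀ (α : Type) [Finite α] (a : α) (L : Language α), LINTIME L → LINTIME (del1 a L)) ↔
      ConcatClosed) ∧
    ((∀ (α : Type) [Finite α] (S : Language (α × Bool)), LINTIME S → LINTIME (exQ S)) ↔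
      ConcatClosed) ∧
    ((∀ (α : Type) [Finite α] (P : Language α), REALTIME P → LINTIME (P∗)) → ConcatClosed) ∧
    (ConcatClosed → ∀ (α : Type) [Finite α] (L : Language α), LinH α L →
      ∀ q : ℕ, 1 ≤ q → ExpTime q L) := by
  refine ⟨⟨concat_of_sq, fun h α _ L hL => h α L L hL hL⟩,
    ⟨concat_of_cyc, fun h α _ L hL => cyc_closed h hL⟩,
    ⟨concat_of_min, fun h α _ L hL => min_closed h hL⟩,
    ⟨concat_of_del1, fun h α _ a L hL => del1_closed h a hL⟩,
    ⟨concat_of_exQ, fun h α _ S hS => exQ_closed h hS⟩,
    concat_of_kstar, fun h α _ L hL q hq => ?_⟩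
  obtain ⟨p, rfl⟩ : ∃ p, q = p + 1 := ⟨q - 1, by omega⟩
  exact linH_expTime h hL p

end Pool.Agent.Results.MP_02733f_lc.EquivalentOperations
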