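import Pool.Agent.Helper86.TMGuess

/-!
# Concatenation closure of LINTIME and `O(log n)` guessed bits

The machine model and the class `LINTIME` are defined in `Pool.Agent.Helper86.TMBase`, the
guess-and-check class `GCLOG = GC(O(log n), LINTIME)` in `Pool.Agent.Helper86.TMGuessDef`.

Idea: the position of the cut is a guess of `O(log n)` bits.  Conversely `⌊log₂ n⌋` bits can be
guessed with the help of a product `{a}* P`: a word `u` is sent to `a^(2|u|+4) # u`, and the part
of the block of ticks that is left over for `P` is a number in unary, whose binary notation
(computed in linear time with a counter) is the guess.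
-/

namespace Pool.Agent.Results.MP_02733f_lc.LogGuessEquivalence

open Pool.Agent.Helper86
open scoped Computability

/-- `LINTIME` is closed under concatenation if and only if every language in
`GC(O(log n), LINTIME)` is in `LINTIME`. -/
theorem result :
    (∀ (α : Type) [Finite α] (L₁ L₂ : Language α),
      LINTIME L₁ → LINTIME L₂ → LINTIME (L₁ * L₂)) ↔
    (∀ (α : Type) [Finite α] (L : Language α), GCLOG L → LINTIME L) := by
  constructor
  · intro h α _ L hL
    exact GCLOG.lintime h hL
  · intro h α _ L₁ L₂ h₁ h₂
    exact h α _ (GCLOG.concat h₁ h₂)

end Pool.Agent.Results.MP_02733f_lc.LogGuessEquivalence
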