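import Pool.Agent.Helper86.TMConcat

/-!
# Concatenation closure of LINTIME reduces to `{a}* P` with `P` in REALTIME

The machine models and the classes `LINTIME` and `REALTIME` are defined in
`Pool.Agent.Helper86.TMBase`.

Idea: `w ∈ L₁ L₂` iff `a^|w| # w pad^m` belongs to `{a}* P`, where `P` is the set of all words
`a^j # w pad^m` such that `j ≤ |w|`, the first `j` letters of `w` form a word of `L₁`, the others a
word of `L₂`, and `m` is large enough for a simulation of a linear-time machine checking this; the
padding makes `P` a real-time language.
-/

namespace Pool.Agent.Results.MP_02733f_lc.RealtimeStarReduction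

open Pool.Agent.Helper86
open scoped Computability

/-- `LINTIME` is closed under concatenation if and only if `{a}* P` is in `LINTIME` for every
finite alphabet, every letter `a` and every `P` in `REALTIME`. -/
theorem result :
    (∀ (α : Type) [Finite α] (L₁ L₂ : Language α),
      LINTIME L₁ → LINTIME L₂ → LINTIME (L₁ * L₂)) ↔
    (∀ (α : Type) [Finite α] (a : α) (P : Language α),
      REALTIME P → LINTIME (({[a]} : Language α)∗ * P)) := by
  constructor
  · intro h α _ a P hP
    exact h α _ _ (REALTIME_kstar_singleton a).lintime hP.lintime
  · intro h α _ L₁ L₂ h₁ h₂
    exact concat_of_star h h₁ h₂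

end Pool.Agent.Results.MP_02733f_lc.RealtimeStarReduction
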