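import Pool.Agent.Helper95.LT.Regular

/-!
# Multiplication of LINTIME languages by regular languages: a dichotomy

The machine models and the classes `LINTIME` and `REALTIME` are defined in
`Pool.Agent.Helper86.TMBase`; `PrefixFree`, `FinPrefixFree`, `SuffixFree`, `FinSuffixFree` and
`ConcatClosed` in `Pool.Agent.Helper95.LT.Defs`.

Idea.  If every word has at most `k` prefixes in `R` then the possible cuts are found in real time
and each is checked in linear time.  Otherwise, `R` being regular, `x y^t` is in `R` for all `t`,
for some `x` and some nonempty `y`, and the instance `a^n v` of membership in `{a}* P` (`P` in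
`REALTIME`, see `RealtimeStarReduction`) is sent to `x y^(m n) code(v) E r`, where `r` is a word of
the right factor, `code` a block code over the given alphabet and `E` an end mark.
-/

namespace Pool.Agent.Results.MP_02733f_lc.RegularContextDichotomy

open Pool.Agent.Helper86 Pool.Agent.Helper95.LT
open scoped Computability

/-- The products `R L S` with real-time `R` and `S.reverse` that are unions of finitely many
prefix-free (suffix-free) languages are in `LINTIME`; and for finitely many regular contexts over
an alphabet with at least two letters these are the only ones for which this holds, unless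
`LINTIME` is closed under concatenation. -/
theorem result :
    (∀ (α : Type) [Finite α] (R S L : Language α), REALTIME R → REALTIME S.reverse →
      FinPrefixFree R → FinSuffixFree S → LINTIME L → LINTIME (R * L * S)) ∧
    (∀ (α : Type) [Finite α] [Nontrivial α] (n : ℕ) (R S : Fin n → Language α),
      (∀ i, (R i).IsRegular) → (∀ i, (S i).IsRegular) →
      ((∀ L : Language α, LINTIME L → LINTIME ({w | ∃ i, w ∈ R i * L * S i} : Language α)) ↔
        ((∀ i, R i = 0 ∨ S i = 0 ∨ (FinPrefixFree (R i) ∧ FinSuffixFree (S i))) ∨
          ConcatClosed)) ∧
      ((∃ i, ¬ FinPrefixFree (R i) ∧ S i ≠ 0) →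
        ((∀ P : Language α, REALTIME P → LINTIME ({w | ∃ i, w ∈ R i * P * S i} : Language α)) ↔
          ConcatClosed))) := by
  constructor
  · intro α _ R S L hR hS h1 h2 hL
    exact easy_side hR hS (Or.inr (Or.inr ⟨h1, h2⟩)) hL
  · intro α _ _ n R S hR hS
    have closed : ConcatClosed → ∀ L : Language α, LINTIME L →
        LINTIME ({w | ∃ i, w ∈ R i * L * S i} : Language α) := by
      intro h L hL
      refine LINTIME.iUnion (fun i => R i * L * S i) fun i => ?_
      exact h α _ _ (h α _ _ (REALTIME_of_regular (hR i)).lintime hL)
        (REALTIME_of_regular (hS i)).lintime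
    refine ⟨⟨fun H => ?_, ?_⟩, ?_⟩
    · by_cases h : ∀ i, R i = 0 ∨ S i = 0 ∨ (FinPrefixFree (R i) ∧ FinSuffixFree (S i))
      · exact Or.inl h
      · right
        push Not at h
        obtain ⟨i, h1, h2, h3⟩ := h
        by_cases h4 : FinPrefixFree (R i)
        · exact hard_right R S hS i (h3 h4) h1 H
        · exact hard_left R S hR i h4 h2 fun P hP => H P hP.lintime
    · rintro (h | h)
      · intro L hL
        refine LINTIME.iUnion (fun i => R i * L * S i) fun i => ?_
        exact easy_side (REALTIME_of_regular (hR i)) (REALTIME_of_regular (hS i).reverse) (h i) hL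
      · exact closed h
    · rintro ⟨i, h1, h2⟩
      exact ⟨fun H => hard_left R S hR i h1 h2 H, fun h P hP => closed h P hP.lintime⟩

end Pool.Agent.Results.MP_02733f_lc.RegularContextDichotomy
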